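import Pool.Agent.MP_db5b97_nt.H85.Spec2

/-! Residue fields and inert polynomials. -/

namespace Pool.Agent.MP_db5b97_nt.H85

open NumberField IsDedekindDomain Polynomial

namespace ResAux

section Fld

variable {k L : Type} [Field k] [Field L] [Algebra k L]

theorem deg_dvd [Module.Finite k L] {g : k[X]} (hg : Irreducible g) (hm : g.Monic) {β : L}
    (h : aeval β g = 0) : g.natDegree ∣ Module.finrank k L := by
  rw [minpoly.eq_of_irreducible_of_monic hg h hm]
  exact minpoly.degree_dvd (IsIntegral.of_finite k β)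

theorem irr_map [Module.Finite k L] {g : k[X]} (hg : Irreducible g) (hm : g.Monic)
    (hc : (Module.finrank k L).Coprime g.natDegree) : Irreducible (g.map (algebraMap k L)) := by
  have hm' := hm.map (algebraMap k L)
  obtain ⟨h, hi, hd⟩ := exists_irreducible_of_natDegree_pos
    (f := g.map (algebraMap k L)) (by rw [natDegree_map]; exact hg.natDegree_pos)
  have : Fact (Irreducible h) := ⟨hi⟩
  let b := AdjoinRoot.powerBasis hi.ne_zero
  have := b.finite
  have : Module.Finite k (AdjoinRoot h) := Module.Finite.trans L _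
  have h1 : aeval (AdjoinRoot.root h) g = 0 := by
    rw [← aeval_map_algebraMap L, AdjoinRoot.aeval_eq, AdjoinRoot.mk_eq_zero]
    exact hd
  have h2 := deg_dvd hg hm h1
  rw [← Module.finrank_mul_finrank k L, b.finrank] at h2
  have h3 : g.natDegree ≤ h.natDegree :=
    Nat.le_of_dvd hi.natDegree_pos (hc.symm.dvd_of_dvd_mul_left h2)
  exact (associated_of_dvd_of_natDegree_le hd hm'.ne_zero (by rwa [natDegree_map])).irreducible hi

theorem root_pow [Finite k] {g : k[X]} (hg : Irreducible g) {β : L} (h : aeval β g = 0) {n : ℕ}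
    (hn : g.natDegree ∣ n) : β ^ Nat.card k ^ n = β := by
  obtain ⟨c, hc⟩ := hg.natDegree_dvd_iff_dvd_X_pow_card_pow_sub_X.1 hn
  have := congrArg (aeval β) hc
  simpa [h, sub_eq_zero] using this

theorem exists_frob (k L : Type) [Field k] [Field L] [Algebra k L] [Finite k] [Finite L] (n : ℕ) :
    ∃ ψ : L →+* L, (∀ x, ψ x = x ^ Nat.card k ^ n) ∧ ((∀ x, ψ x = x) → Module.finrank k L ∣ n) := by
  have := Fintype.ofFinite k
  refine ⟨(FiniteField.frobeniusAlgHom k L ^ n : L →ₐ[k] L), fun x => ?_, fun h => ?_⟩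
  · simp [AlgHom.coe_pow, FiniteField.coe_frobeniusAlgHom, pow_iterate]
  · rw [← FiniteField.orderOf_frobeniusAlgHom]
    exact orderOf_dvd_of_pow_eq_one (AlgHom.ext h)

theorem exists_irr (k : Type) [Field k] [Finite k] {n : ℕ} (hn : 0 < n) :
    ∃ g : k[X], g.Monic ∧ g.natDegree = n ∧ Irreducible g := by
  obtain ⟨p, hp⟩ := CharP.exists k
  have : Fact p.Prime := ⟨CharP.char_is_prime k p⟩
  have : NeZero n := ⟨hn.ne'⟩
  obtain ⟨α, hα⟩ := Field.exists_primitive_element k (FiniteField.Extension k p n)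
  have hi := IsIntegral.of_finite k α
  exact ⟨minpoly k α, minpoly.monic hi, by
    rw [(Field.primitive_element_iff_minpoly_natDegree_eq _ _).1 hα,
      FiniteField.finrank_extension], minpoly.irreducible hi⟩

end Fld

section Rng

variable {R S : Type} [CommRing R] [CommRing S] [Algebra R S]

theorem aeval_mk (p : Ideal R) (q : Ideal S) [q.LiesOver p] (β : S) (g : R[X]) :
    aeval (Ideal.Quotient.mk q β) (g.map (Ideal.Quotient.mk p)) =
      Ideal.Quotient.mk q (aeval β g) := by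
  rw [aeval_def, aeval_def, eval₂_map, hom_eval₂]
  rfl

theorem exists_frobG (R : Type) [CommRing R] [Algebra R S] (G : Type) [Group G] [Finite G]
    [MulSemiringAction G S] [SMulCommClass G R S] [Algebra.IsInvariant R S G] (q : Ideal S)
    [q.IsPrime] [Finite (S ⧸ q)] : ∃ σ : G, ∀ n, σ ^ n = 1 → ∀ x : S,
      x ^ Nat.card (R ⧸ q.under R) ^ n - x ∈ q := by
  obtain ⟨σ, hσ⟩ := IsArithFrobAt.exists_of_isInvariant R G q
  have key : ∀ (n : ℕ) (x : S), Ideal.Quotient.mk q (σ ^ n • x) =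
      Ideal.Quotient.mk q x ^ Nat.card (R ⧸ q.under R) ^ n := fun n x => by
    induction n with
    | zero => simp
    | succ n ih =>
      rw [pow_succ' σ, mul_smul, pow_succ, pow_mul, ← ih]
      exact hσ.mk_apply _
  refine ⟨σ, fun n hn x => ?_⟩
  rw [← Ideal.Quotient.eq, map_pow, ← key, hn, one_smul]

end Rng

instance {K F : Type} [Field K] [NumberField K] [Field F] [NumberField F] [Algebra K F]
    (w : Sp F) : w.asIdeal.LiesOver (und K w).asIdeal := ⟨rfl⟩

instance {F : Type} [Field F] [NumberField F] (w : Sp F) : Finite (𝓞 F ⧸ w.asIdeal) :=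
  Ideal.finiteQuotientOfFreeOfNeBot _ w.ne_bot

theorem und_und (K E : Type) {F : Type} [Field K] [NumberField K] [Field E] [NumberField E]
    [Field F] [NumberField F] [Algebra K E] [Algebra E F] [Algebra K F] [IsScalarTower K E F]
    (w : Sp F) : und K (und E w) = und K w :=
  HeightOneSpectrum.ext (Ideal.under_under w.asIdeal)

attribute [local instance] Ideal.Quotient.field

theorem key (hG : RowGEN) (p a : ℕ) (K F0 K1 F1 G : Type) [Field K] [NumberField K] [Field F0]
    [NumberField F0] [Field K1] [NumberField K1] [Field F1] [NumberField F1] [Algebra K F0]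
    [Algebra K K1] [Algebra F0 F1] [Algebra K1 F1] [Algebra K F1] [IsScalarTower K F0 F1]
    [IsScalarTower K K1 F1] [Group G] [MulSemiringAction G F0] [IsGaloisGroup G K F0] (α : 𝓞 K1)
    (g : (𝓞 K)[X]) (w : Sp F1) (hp : p ≠ 0)
    (hσ : ∀ σ : G, ∃ q : ℕ, q.Coprime p ∧ σ ^ (q * p ^ a) = 1) (hm : g.Monic)
    (hα : aeval α g = 0) (hd : g.natDegree = p ^ a)
    (ht : IntermediateField.adjoin F0 {algebraMap K1 F1 α} = ⊤)
    (hi : Irreducible (g.map (Ideal.Quotient.mk (und K w).asIdeal))) :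
    (w.asIdeal.inertiaDeg (𝓞 K1)).Coprime p := by
  have : Finite G := IsGaloisGroup.finite G K F0
  have l0 : (und F0 w).asIdeal.LiesOver (und K w).asIdeal := und_und K F0 w ▸ inferInstance
  have l1 : (und K1 w).asIdeal.LiesOver (und K w).asIdeal := und_und K K1 w ▸ inferInstance
  obtain ⟨σ, h1⟩ := exists_frobG (𝓞 K) G (und F0 w).asIdeal
  obtain ⟨q, hq, h2⟩ := hσ σ
  have h3 := h1 _ h2
  rw [← l0.over] at h3
  set β : 𝓞 F1 := algebraMap (𝓞 K1) (𝓞 F1) α with hβ
  have hβ0 : aeval β g = 0 := by rw [hβ, aeval_algebraMap_apply, hα, map_zero]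
  have h4 := hG F0 F1 β (g.map (algebraMap (𝓞 K) (𝓞 F0))) (und F0 w) (hm.map _)
    (by rw [aeval_map_algebraMap, hβ0]) ht (by
      have := (PerfectField.separable_of_irreducible hi).map
        (f := algebraMap (𝓞 K ⧸ (und K w).asIdeal) (𝓞 F0 ⧸ (und F0 w).asIdeal))
      rw [Polynomial.map_map] at this ⊢
      exact this)
  obtain ⟨ψ, ψ1, ψ2⟩ := exists_frob (𝓞 K ⧸ (und K w).asIdeal) (𝓞 F1 ⧸ w.asIdeal) (q * p ^ a)
  have h5 : ψ.comp ((Ideal.Quotient.mk w.asIdeal).comp (aeval β : (𝓞 F0)[X] →ₐ[𝓞 F0] 𝓞 F1).toRingHom)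
      = (Ideal.Quotient.mk w.asIdeal).comp (aeval β : (𝓞 F0)[X] →ₐ[𝓞 F0] 𝓞 F1).toRingHom := by
    refine Polynomial.ringHom_ext (fun x => ?_) ?_
    · simp only [RingHom.comp_apply, AlgHom.toRingHom_eq_coe, RingHom.coe_coe, aeval_C]
      rw [ψ1, ← map_pow, Ideal.Quotient.eq, ← map_pow, ← map_sub]
      exact h3 x
    · simp only [RingHom.comp_apply, AlgHom.toRingHom_eq_coe, RingHom.coe_coe, aeval_X]
      rw [ψ1]
      refine root_pow hi (by rw [aeval_mk, hβ0, map_zero]) ?_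
      rw [hm.natDegree_map, hd]
      exact dvd_mul_left _ _
  have h6 := ψ2 fun x => by
    obtain ⟨x, rfl⟩ := Ideal.Quotient.mk_surjective x
    obtain ⟨h, hh⟩ := h4 x
    rw [Ideal.Quotient.eq.2 (Ideal.map_le_iff_le_comap.2 le_rfl hh)]
    exact RingHom.congr_fun h5 h
  have h7 := deg_dvd hi (hm.map _) (β := Ideal.Quotient.mk (und K1 w).asIdeal α)
    (by rw [aeval_mk, hα, map_zero])
  rw [hm.natDegree_map, hd, ← Ideal.inertiaDeg_eq_of_isMaximal] at h7
  rw [← Ideal.inertiaDeg_eq_of_isMaximal, Ideal.inertiaDeg_tower (und K1 w).asIdeal] at h6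
  have h8 := (Nat.mul_dvd_mul_right h7 _).trans h6
  rw [mul_comm q] at h8
  exact hq.coprime_dvd_left (Nat.dvd_of_mul_dvd_mul_left (by positivity) h8)

theorem ex (K : Type) [Field K] [NumberField K] (l n : ℕ) (hl : l ≠ 0) (hn : 0 < n) :
    ∃ g : (𝓞 K)[X], g.Monic ∧ g.natDegree = n ∧
      ∀ v : Pl K l, Irreducible (g.map (Ideal.Quotient.mk v.1.asIdeal)) := by
  have : Finite (Pl K l) := ((Ideal.finite_factors (I := Ideal.span {(l : 𝓞 K)})
    (by simpa using hl)).subset fun v hv => Ideal.dvd_span_singleton.2 hv).to_subtype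
  choose f f1 f2 f3 using fun v : Pl K l => exists_irr (𝓞 K ⧸ v.1.asIdeal) hn
  choose c hc using fun i : ℕ => Ideal.pi_quotient_surjective (I := fun v : Pl K l => v.1.asIdeal)
    (fun v v' h => v.1.isCoprime_of_ne v'.1 fun e => h (Subtype.ext e)) fun v => (f v).coeff i
  have h1 : (∑ i ∈ Finset.range n, C (c i) * X ^ i).degree < (n : WithBot ℕ) := by
    rw [← Fin.sum_univ_eq_sum_range (fun i => C (c i) * X ^ i)]
    exact degree_sum_fin_lt _
  refine ⟨X ^ n + ∑ i ∈ Finset.range n, C (c i) * X ^ i, monic_X_pow_add h1, ?_, fun v => ?_⟩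
  · rw [natDegree_add_eq_left_of_degree_lt (by rwa [degree_X_pow]), natDegree_X_pow]
  · convert f3 v using 1
    rw [(f1 v).as_sum, f2]
    simp only [Polynomial.map_add, Polynomial.map_pow, map_X, Polynomial.map_sum,
      Polynomial.map_mul, map_C, hc]

theorem res (p : ℕ) (P K F : Type) [Group P] [Finite P] [Field K] [NumberField K]
    [Field F] [NumberField F] [Algebra K F] [MulSemiringAction P F] (w : Sp F) (hP : IsPGroup p P)
    (hK : ∀ (s : P) (x : K), s • algebraMap K F x = algebraMap K F x)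
    (hc : (w.asIdeal.inertiaDeg (𝓞 K)).Coprime p) (x : 𝓞 F) :
    ∃ y : 𝓞 F, (∀ s : P, s • y = y) ∧ x - y ∈ w.asIdeal := by
  have : SMulCommClass P (𝓞 K) (𝓞 F) := ⟨fun s a y => by
    rw [Algebra.smul_def, Algebra.smul_def, smul_mul']
    congr 1
    exact Subtype.ext (hK s a)⟩
  let A := FixedPoints.subalgebra (𝓞 K) (𝓞 F) P
  have : Algebra.IsInvariant A (𝓞 F) P := ⟨fun b hb => ⟨⟨b, hb⟩, rfl⟩⟩
  have := Algebra.IsInvariant.isIntegral A (𝓞 F) P
  have : (w.asIdeal.under A).IsMaximal := Ideal.IsMaximal.under A w.asIdeal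
  have : Finite (A ⧸ w.asIdeal.under A) :=
    Finite.of_injective _ (algebraMap (A ⧸ w.asIdeal.under A) (𝓞 F ⧸ w.asIdeal)).injective
  obtain ⟨σ, h1⟩ := exists_frobG A P w.asIdeal
  obtain ⟨m, hm⟩ := hP σ
  obtain ⟨ψ, ψ1, ψ2⟩ := exists_frob (A ⧸ w.asIdeal.under A) (𝓞 F ⧸ w.asIdeal) (p ^ m)
  have h2 := ψ2 fun x => by
    obtain ⟨x, rfl⟩ := Ideal.Quotient.mk_surjective x
    rw [ψ1, ← map_pow, Ideal.Quotient.eq]
    exact h1 _ hm x
  have h3 := Ideal.inertiaDeg_above_dvd (R := 𝓞 K) (w.asIdeal.under A) w.asIdeal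
  rw [Ideal.inertiaDeg_eq_of_isMaximal (w.asIdeal.under A) w.asIdeal] at h3
  obtain ⟨y, hy⟩ := (Algebra.finrank_eq_one_iff_bijective_algebraMap.1
    (Nat.eq_one_of_dvd_coprimes (hc.pow_right m) h3 h2)).2 (Ideal.Quotient.mk _ x)
  obtain ⟨y, rfl⟩ := Ideal.Quotient.mk_surjective y
  exact ⟨y, y.2, Ideal.Quotient.eq.1 hy.symm⟩

theorem val_le {F : IntermediateField ℚ Om} [NumberField F] (w : Sp F) {l : ℕ} {n : ℤ}
    (hl : (l : 𝓞 F) ∉ w.asIdeal) (hn : n.natAbs ∣ l) {x : F} (h : IsIntegral ℤ (n • (x : Om))) :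
    w.valuation F x ≤ 1 := by
  have h1 : IsIntegral ℤ (n • x) :=
    (isIntegral_algHom_iff (F.val.toRingHom.toIntAlgHom) Subtype.val_injective).1 (by
      rw [map_zsmul]
      convert h
      exacts [Subsingleton.elim _ _, rfl])
  have h2 := w.valuation_le_one (K := F) (⟨n • x, h1⟩ : 𝓞 F)
  have h3 : w.valuation F (algebraMap (𝓞 F) F n) = 1 :=
    (w.valuation_eq_one_iff_notMem (K := F)).2 fun hh => hl (by
      obtain ⟨c, hc⟩ := Int.natAbs_dvd.1 (Int.natCast_dvd_natCast.2 hn)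
      rw [← Int.cast_natCast, hc, Int.cast_mul]
      exact w.asIdeal.mul_mem_right _ hh)
  have h4 : w.valuation F (n • x) = w.valuation F x := by
    rw [zsmul_eq_mul, map_mul, ← map_intCast (algebraMap (𝓞 F) F), h3, one_mul]
  exact h4 ▸ h2

theorem lu (T : Set Om) (hT : T.Finite) : ∃ l : ℕ, 2 ≤ l ∧
    ∀ (F : IntermediateField ℚ Om) [NumberField F] (x : Un F), (x.val : Om) ∈ T →
      dv F l x = 0 := by
  choose n n0 hn using fun x : Om => ((IsFractionRing.isAlgebraic_iff ℤ ℚ Om).2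
    ((AlgebraicClosure.isAlgebraic ℚ).isAlgebraic x)).exists_integral_multiple
  have h0 : 0 < ∏ t ∈ hT.toFinset, (n t).natAbs * (n t⁻¹).natAbs :=
    Finset.prod_pos fun t _ => Nat.mul_pos (Int.natAbs_pos.2 (n0 _)) (Int.natAbs_pos.2 (n0 _))
  refine ⟨2 * ∏ t ∈ hT.toFinset, (n t).natAbs * (n t⁻¹).natAbs, by omega, fun F _ x hx => ?_⟩
  have hd := (Finset.dvd_prod_of_mem (fun t => (n t).natAbs * (n t⁻¹).natAbs)
    (hT.mem_toFinset.2 hx)).mul_left 2
  ext w
  have h1 := val_le w.1 w.2 ((dvd_mul_right _ _).trans hd) (hn _)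
  have h2 := val_le w.1 w.2 ((dvd_mul_left _ _).trans hd) (x := x.val⁻¹) (hn _)
  rw [map_inv₀, inv_le_one₀ (by simp [zero_lt_iff])] at h2
  simp [ord, le_antisymm h1 h2]

end ResAux

attribute [local instance] Ideal.Quotient.field in
theorem rowRES (hG : RowGEN) : RowRES where
  key p a hp K F0 K1 F1 G := by
    intros
    apply ResAux.key hG p a K F0 K1 F1 G _ _ _ hp.ne_zero <;> assumption
  ex := ResAux.ex
  up K F _ _ _ _ _ w g hm hi hc := by
    have := ResAux.irr_map (L := 𝓞 F ⧸ w.asIdeal) hi (hm.map _)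
      (by rwa [hm.natDegree_map, ← Ideal.inertiaDeg_eq_of_isMaximal])
    rw [Polynomial.map_map] at this ⊢
    exact this
  fld K _ _ l g hl hm hi := by
    have hr := Nat.minFac_prime (n := l) (by omega)
    have : (Ideal.span {(l.minFac : ℤ)}).IsMaximal :=
      PrincipalIdealRing.isMaximal_of_irreducible (Nat.prime_iff_prime_int.1 hr).irreducible
    obtain ⟨Q, h1, h2⟩ := Ideal.exists_maximal_ideal_liesOver_of_isIntegral (S := 𝓞 K)
      (Ideal.span {(l.minFac : ℤ)})
    have h3 : (l : 𝓞 K) ∈ Q := by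
      have : (l : ℤ) ∈ Q.under ℤ := by
        rw [← h2.over, Ideal.mem_span_singleton]
        exact Int.natCast_dvd_natCast.2 l.minFac_dvd
      simpa [Ideal.mem_comap] using this
    have h4 : Q ≠ ⊥ := by
      rintro rfl
      have : l = 0 := by simpa using h3
      omega
    exact hm.irreducible_iff_irreducible_map_fraction_map.1
      (hm.irreducible_of_irreducible_map _ _ (hi ⟨⟨Q, h1.isPrime, h4⟩, h3⟩))
  res p _ := ResAux.res p
  lu T hT _ := ResAux.lu T hT

end Pool.Agent.MP_db5b97_nt.H85
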