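import Pool.Agent.MP_db5b97_nt.H95.SMALL

/-! The contribution of the large active primes. -/

namespace Pool.Agent.MP_db5b97_nt.H95

open Finset Filter Topology H31

theorem size_le {n y m C t : ℕ} {τ : ℝ} (hτ : 0 < τ) (hy0 : 0 < y) (hn0 : 0 < n)
    (hn : n ≤ y ^ 2) (hy : 625 * C / τ + 1 ≤ Real.log y)
    (ht : t ≤ C * (Nat.log 2 n + 1) ^ 4) (hm : τ * (m / y : ℕ) ≤ t) :
    (m : ℝ) ≤ y * Real.log y ^ 5 := by
  have hq : 0 ≤ 625 * C / τ := by positivity
  have hL : 1 ≤ Real.log y := by linarith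
  have h1 : Real.log n ≤ 2 * Real.log y := by
    have := Real.log_le_log (by positivity) (show (n : ℝ) ≤ (y : ℝ) ^ 2 by exact_mod_cast hn)
    rwa [Real.log_pow] at this
  have h2 : (Nat.log 2 n : ℝ) * Real.log 2 ≤ Real.log n := by
    have h := Nat.pow_log_le_self 2 hn0.ne'
    have := Real.log_le_log (by positivity)
      (show (2 : ℝ) ^ Nat.log 2 n ≤ (n : ℝ) by exact_mod_cast h)
    rwa [Real.log_pow] at this
  have h3 : (Nat.log 2 n : ℝ) + 1 ≤ 5 * Real.log y := by
    nlinarith [Real.log_two_gt_d9, (Nat.cast_nonneg (Nat.log 2 n) : (0 : ℝ) ≤ _)]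
  have h4 : (t : ℝ) ≤ C * (5 * Real.log y) ^ 4 := by
    have : (t : ℝ) ≤ C * ((Nat.log 2 n : ℝ) + 1) ^ 4 := by exact_mod_cast ht
    exact this.trans (by gcongr)
  have h5 : ((m / y : ℕ) : ℝ) ≤ 625 * C / τ * Real.log y ^ 4 := by
    rw [div_mul_eq_mul_div, le_div_iff₀ hτ]
    nlinarith
  have h6 : (m : ℝ) ≤ y * ((m / y : ℕ) + 1) := by
    exact_mod_cast (Nat.lt_mul_div_succ m hy0).le
  refine h6.trans (mul_le_mul_of_nonneg_left ?_ (by positivity))
  have h7 : 1 ≤ Real.log y ^ 4 := one_le_pow₀ hL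
  have h8 := mul_le_mul_of_nonneg_right hy (show 0 ≤ Real.log y ^ 4 by positivity)
  nlinarith

theorem rowNUM : RowLAND → RowRICH → RowNUM := by
  classical
  intro hL hR η ε C hη hη1 hε
  have hy : Tendsto (fun n : ℕ => ⌈η * sz n⌉₊) atTop atTop :=
    tendsto_atTop.2 fun b => (small_big η b hη).mono fun _ h => h.2
  have hτ : 0 < ε * η / 3 := by positivity
  have hl : Tendsto (fun n : ℕ => Real.log n) atTop atTop :=
    Real.tendsto_log_atTop.comp tendsto_natCast_atTop_atTop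
  filter_upwards [hL (ε / 3) (by positivity), hy.eventually (hR _ (ε / 12) 5 hτ (by positivity)),
    small_big η 1 hη, hy.eventually (hl.eventually_ge_atTop (625 * C / (ε * η / 3) + 1)),
    sqrt_le_sz 1 1 one_pos, eventually_ge_atTop 1] with n h1 h2 h3 h4 h5 hn A hA
  obtain ⟨ι, _, m, T, hm, hAT, hK, hT⟩ := hA
  have hz1 : 1 ≤ sz n := by
    have : 1 ≤ Real.sqrt n := Real.one_le_sqrt.2 (by exact_mod_cast hn)
    linarith
  have hz2 : sz n ^ 2 = n * Real.log n :=
    Real.sq_sqrt (mul_nonneg (by positivity) (Real.log_natCast_nonneg n))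
  have hy1 : η * sz n ≤ ⌈η * sz n⌉₊ := Nat.le_ceil _
  have hy2 : (⌈η * sz n⌉₊ : ℝ) ≤ 2 * sz n := by
    have := (Nat.ceil_lt_add_one (show 0 ≤ η * sz n by positivity)).le
    nlinarith
  generalize ⌈η * sz n⌉₊ = y at *
  set τ := ε * η / 3 with hτd
  have hy0 : 0 < y := h3.2
  have hny : n ≤ y ^ 2 := by simpa using h3.1
  have hpm : ∀ i, ∀ p ∈ T i, p ≤ m i := fun i p hp => by
    obtain ⟨-, -, c, f, hc, -, e⟩ := hT i p hp
    nlinarith
  have hmn : ∀ i, m i ≤ n := fun i =>
    (single_le_sum (f := m) (fun _ _ => Nat.zero_le _) (mem_univ i)).trans hm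
  have hlog : ∀ i, ∀ p ∈ T i, Real.log p ≤ Real.log n := fun i p hp =>
    Real.log_le_log (by exact_mod_cast (hT i p hp).1.pos)
      (by exact_mod_cast (hpm i p hp).trans (hmn i))
  have hTP : ∀ i, T i ⊆ PM y (m i) := fun i p hp => mem_PM.2 ⟨hpm i p hp, hT i p hp⟩
  set I1 := univ.filter fun i => (T i).card ≤ 1 with hI1
  set I2 := univ.filter fun i => ((T i).card : ℝ) ≤ τ * (m i / y : ℕ) with hI2
  set I3 := univ.filter fun i => 2 ≤ (T i).card ∧ τ * (m i / y : ℕ) ≤ (T i).card with hI3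
  have hb : ∀ (I : Finset ι) (f : ℕ → ℝ) (b : ℝ), (∀ i, ∀ p ∈ T i, f p ≤ b) →
      ∑ p ∈ I.biUnion T, f p ≤ (I.biUnion T).card * b := fun I f b h => by
    rw [← nsmul_eq_mul]
    refine sum_le_card_nsmul _ _ _ fun p hp => ?_
    obtain ⟨i, -, hi⟩ := mem_biUnion.1 hp
    exact h i p hi
  have hsub : A ⊆ (I1.biUnion T ∪ I2.biUnion T) ∪ I3.biUnion T := fun p hp => by
    obtain ⟨i, hi⟩ := hAT p hp
    simp only [mem_union, mem_biUnion, hI1, hI2, hI3, mem_filter, mem_univ, true_and]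
    by_cases a : (T i).card ≤ 1
    · exact Or.inl (Or.inl ⟨i, a, hi⟩)
    · rcases le_total ((T i).card : ℝ) (τ * (m i / y : ℕ)) with b | b
      · exact Or.inl (Or.inr ⟨i, b, hi⟩)
      · exact Or.inr ⟨i, ⟨by omega, b⟩, hi⟩
  have hun : ∀ U V : Finset ℕ, ∑ p ∈ U ∪ V, Real.log p ≤
      ∑ p ∈ U, Real.log p + ∑ p ∈ V, Real.log p := fun U V => by
    rw [← sum_union_inter]
    exact le_add_of_nonneg_right (sum_nonneg fun p _ => Real.log_natCast_nonneg p)
  have e0 : ∑ p ∈ A, Real.log p ≤ ∑ p ∈ I1.biUnion T, Real.log p +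
      ∑ p ∈ I2.biUnion T, Real.log p + ∑ p ∈ I3.biUnion T, Real.log p := by
    have a := sum_le_sum_of_subset_of_nonneg (f := fun p : ℕ => Real.log p) hsub
      fun p _ _ => Real.log_natCast_nonneg p
    have b := hun (I1.biUnion T ∪ I2.biUnion T) (I3.biUnion T)
    have c := hun (I1.biUnion T) (I2.biUnion T)
    linarith
  have e1 : ∑ p ∈ I1.biUnion T, Real.log p ≤ (1 + ε / 3) * sz n := by
    refine h1 _ (fun p hp => ?_) ?_
    · obtain ⟨i, -, hi⟩ := mem_biUnion.1 hp
      exact (hT i p hi).1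
    · have a : ∀ I : Finset ι, ∑ p ∈ I.biUnion T, p ≤ ∑ i ∈ I, ∑ p ∈ T i, p := fun I => by
        induction I using Finset.induction_on with
        | empty => simp
        | insert i I hi ih =>
          rw [biUnion_insert, sum_insert hi]
          have := sum_union_inter (s₁ := T i) (s₂ := I.biUnion T) (f := fun p => p)
          omega
      refine (a I1).trans (le_trans (sum_le_sum fun i hi => ?_)
        ((sum_le_sum_of_subset (subset_univ I1)).trans hm))
      have b := sum_le_card_nsmul (T i) (fun p => p) (m i) (hpm i)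
      have c := (mem_filter.1 hi).2
      rw [smul_eq_mul] at b
      exact b.trans ((Nat.mul_le_mul_right _ c).trans (by omega))
  have hLn : 0 ≤ Real.log n := Real.log_natCast_nonneg n
  have hyR : (0 : ℝ) < y := by exact_mod_cast hy0
  have e2 : ∑ p ∈ I2.biUnion T, Real.log p ≤ ε / 3 * sz n := by
    refine (hb I2 _ _ hlog).trans ?_
    have a : ((I2.biUnion T).card : ℝ) ≤ ∑ i ∈ I2, ((T i).card : ℝ) := by
      exact_mod_cast card_biUnion_le
    have b : ∑ i ∈ I2, ((T i).card : ℝ) ≤ ∑ i ∈ I2, τ / y * (m i : ℝ) := sum_le_sum fun i hi => by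
      refine (mem_filter.1 hi).2.trans ?_
      rw [div_mul_eq_mul_div τ, mul_div_assoc τ]
      exact mul_le_mul_of_nonneg_left Nat.cast_div_le hτ.le
    have c : ∑ i ∈ I2, (m i : ℝ) ≤ n := by
      exact_mod_cast (sum_le_sum_of_subset (subset_univ I2)).trans hm
    rw [← mul_sum] at b
    have d : ((I2.biUnion T).card : ℝ) ≤ τ / y * n :=
      a.trans (b.trans (mul_le_mul_of_nonneg_left c (by positivity)))
    refine (mul_le_mul_of_nonneg_right d hLn).trans ?_
    rw [mul_assoc, ← hz2, div_mul_eq_mul_div, div_le_iff₀ hyR, hτd]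
    have := mul_le_mul_of_nonneg_left hy1 (show 0 ≤ ε / 3 * sz n by positivity)
    nlinarith
  have e3 : ∑ p ∈ I3.biUnion T, Real.log p ≤ ε / 3 * sz n := by
    refine (hb I3 _ _ hlog).trans ?_
    have a := h2 (I3.image m) fun k hk => by
      obtain ⟨i, hi, rfl⟩ := mem_image.1 hk
      have hi := (mem_filter.1 hi).2
      have c := card_le_card (hTP i)
      exact ⟨size_le hτ hy0 hn hny h4 (hK i) hi.2, hi.1.trans c,
        hi.2.trans (by exact_mod_cast c)⟩
    have b : I3.biUnion T ⊆ (I3.image m).biUnion (PM y) := fun p hp => by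
      obtain ⟨i, hi, h⟩ := mem_biUnion.1 hp
      exact mem_biUnion.2 ⟨m i, mem_image_of_mem m hi, hTP i h⟩
    have c : ((I3.biUnion T).card : ℝ) ≤ ∑ k ∈ I3.image m, ((PM y k).card : ℝ) := by
      exact_mod_cast (card_le_card b).trans card_biUnion_le
    have d : Real.log n ≤ 2 * Real.log y := by
      have := Real.log_le_log (by positivity) (show (n : ℝ) ≤ (y : ℝ) ^ 2 by exact_mod_cast hny)
      rwa [Real.log_pow] at this
    have e := mul_le_mul c d hLn (sum_nonneg fun _ _ => by positivity)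
    nlinarith
  linarith

end Pool.Agent.MP_db5b97_nt.H95
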