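import Pool.Agent.MP_db5b97_nt.H85.Spec

/-! The final elementary estimate. -/

namespace Pool.Agent.MP_db5b97_nt.H85

open Finset

theorem rowG_term {n p : ℕ} (hp : p.Prime) (hn : 2 ≤ n) (y : ℕ) :
    (((Nat.log p (n ^ 2) + 1) * Jb (Nat.log p (n ^ 2)) : ℕ) : ℝ) * Real.log p ≤
      (if p ^ 4 ≤ n then 432 * Real.log n ^ 4 else 0) + (if p < y then 3248 * Real.log p else 0) +
        if y ≤ p then 928 * Real.log n else 0 := by
  have h1 := Nat.pow_log_le_self p (x := n ^ 2) (by positivity)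
  have h7 : ¬ p ^ 4 ≤ n → Nat.log p (n ^ 2) ≤ 7 := fun h =>
    Nat.le_of_lt_succ (Nat.log_lt_of_lt_pow (by positivity) (by
      rw [show p ^ 8 = (p ^ 4) ^ 2 by ring]
      exact Nat.pow_lt_pow_left (not_le.1 h) two_ne_zero))
  generalize Nat.log p (n ^ 2) = k at h1 h7
  have hp0 : (0 : ℝ) < p := by exact_mod_cast hp.pos
  have hl : 0 ≤ Real.log p := Real.log_natCast_nonneg p
  have hL : 0 ≤ Real.log n := Real.log_natCast_nonneg n
  have hk : (0 : ℝ) ≤ k := by positivity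
  have h2 : k * Real.log p ≤ 2 * Real.log n := by
    have := Real.log_le_log (by positivity) (show (p : ℝ) ^ k ≤ (n : ℝ) ^ 2 by exact_mod_cast h1)
    rw [Real.log_pow, Real.log_pow] at this
    exact_mod_cast this
  have e : (((k + 1) * Jb k : ℕ) : ℝ) * Real.log p =
      (((k + 1) * (k ^ 2 + k + 2) : ℕ) : ℝ) * (k * Real.log p) := by
    unfold Jb jb; push_cast; ring
  have h0 : 0 ≤ k * Real.log p := by positivity
  rw [e]
  by_cases h : p ^ 4 ≤ n
  · have h3 : (k : ℝ) ≤ 3 * Real.log n := by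
      have h4 : Real.log 2 ≤ Real.log p := Real.log_le_log two_pos (by exact_mod_cast hp.two_le)
      nlinarith [Real.log_two_gt_d9]
    have h4 : (((k + 1) * (k ^ 2 + k + 2) : ℕ) : ℝ) * (k * Real.log p) ≤ 432 * Real.log n ^ 4 := by
      rcases Nat.eq_zero_or_pos k with rfl | hk1
      · simp only [Nat.cast_zero, zero_mul, mul_zero]; positivity
      · have h5 : (((k + 1) * (k ^ 2 + k + 2) : ℕ) : ℝ) ≤ 8 * k ^ 3 := by
          have : (k + 1) * (k ^ 2 + k + 2) ≤ (2 * k) * (4 * k ^ 2) :=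
            Nat.mul_le_mul (by omega) (by nlinarith)
          exact_mod_cast this.trans (le_of_eq (by ring))
        calc _ ≤ 8 * (3 * Real.log n) ^ 3 * (2 * Real.log n) :=
              mul_le_mul (h5.trans (by gcongr)) h2 h0 (by positivity)
          _ = _ := by ring
    rw [if_pos h]
    split_ifs <;> nlinarith
  · have h3 := h7 h
    have h4 : (((k + 1) * (k ^ 2 + k + 2) : ℕ) : ℝ) ≤ 464 := by
      have : (k + 1) * (k ^ 2 + k + 2) ≤ 8 * 58 := Nat.mul_le_mul (by omega) (by nlinarith)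
      exact_mod_cast this
    have h5 : (k : ℝ) ≤ 7 := by exact_mod_cast h3
    have h6 := mul_le_mul_of_nonneg_right h4 h0
    rw [if_neg h]
    rcases lt_or_ge p y with h8 | h8
    · rw [if_pos h8, if_neg (not_le.2 h8)]
      nlinarith
    · rw [if_pos h8, if_neg (not_lt.2 h8)]
      linarith

theorem rowG_small {n : ℕ} (hn : 2 ≤ n) (T : Finset ℕ) (hT : ∀ p ∈ T, p.Prime) :
    ((T.filter (· ^ 4 ≤ n)).card : ℝ) * Real.log n ^ 4 ≤ 16 ^ 4 * Real.sqrt n := by
  have hn0 : (0 : ℝ) < n := by positivity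
  obtain ⟨u, hu0, hu⟩ : ∃ u : ℝ, 0 < u ∧ u ^ 16 = n :=
    ⟨(n : ℝ) ^ ((16 : ℕ) : ℝ)⁻¹, by positivity, Real.rpow_inv_natCast_pow hn0.le (by norm_num)⟩
  have h1 : ((T.filter (· ^ 4 ≤ n)).card : ℝ) ≤ u ^ 4 := by
    have h2 : T.filter (· ^ 4 ≤ n) ⊆ Icc 1 ⌊u ^ 4⌋₊ := fun p hp => by
      rw [mem_filter] at hp
      refine mem_Icc.2 ⟨(hT p hp.1).pos, Nat.le_floor ?_⟩
      refine (pow_le_pow_iff_left₀ (by positivity) (by positivity) four_ne_zero).1 ?_
      rw [← pow_mul, hu]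
      exact_mod_cast hp.2
    have h3 := card_le_card h2
    rw [Nat.card_Icc, Nat.add_sub_cancel] at h3
    exact (Nat.cast_le.2 h3).trans (Nat.floor_le (by positivity))
  have h2 : Real.log n ≤ 16 * u := by
    rw [← hu, Real.log_pow]
    push_cast
    linarith [Real.log_le_sub_one_of_pos hu0]
  have h3 : Real.sqrt n = u ^ 8 := by
    rw [← hu, show u ^ 16 = (u ^ 8) ^ 2 by ring, Real.sqrt_sq (by positivity)]
  calc _ ≤ u ^ 4 * (16 * u) ^ 4 := mul_le_mul h1
        (pow_le_pow_left₀ (Real.log_natCast_nonneg n) h2 4) (by positivity) (by positivity)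
    _ = _ := by rw [h3]; ring

theorem rowG_mid (T : Finset ℕ) (hT : ∀ p ∈ T, p.Prime) (y : ℕ) :
    ∑ p ∈ T.filter (· < y), Real.log p ≤ 3 * y := by
  have h1 : ∑ p ∈ T.filter (· < y), Real.log p ≤
      ∑ p ∈ (range (y + 1)).filter Nat.Prime, Real.log p :=
    sum_le_sum_of_subset_of_nonneg (fun p hp => by
      rw [mem_filter] at hp ⊢
      exact ⟨mem_range.2 (by omega), hT p hp.1⟩) fun p _ _ => Real.log_natCast_nonneg p
  have h2 : (primorial y : ℝ) ≤ 4 ^ y := by exact_mod_cast primorial_le_four_pow y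
  have h3 := Real.log_le_log (by exact_mod_cast primorial_pos y) h2
  rw [primorial, Nat.cast_prod, Real.log_prod fun p hp => by
    exact_mod_cast (mem_filter.1 hp).2.ne_zero, Real.log_pow] at h3
  have h4 := Real.log_le_sub_one_of_pos (x := 4) (by norm_num)
  nlinarith [(Nat.cast_nonneg y : (0 : ℝ) ≤ y)]

theorem rowG : RowG := by
  refine ⟨2 + 864 * 16 ^ 4 + 3248 * 18 + 928 * 2, fun N T hN hT h => ?_⟩
  have hN' : (1 : ℝ) ≤ N := by exact_mod_cast hN
  have hL : 1 / 2 < Real.log (N + 1) := by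
    have := Real.log_le_log two_pos (show (2 : ℝ) ≤ N + 1 by linarith)
    linarith [Real.log_two_gt_d9]
  set L := Real.log (N + 1) with hLd
  set S := Real.sqrt (N * L) with hS
  have hS2 : S ^ 2 = N * L := Real.sq_sqrt (by positivity)
  have hS0 : 0 ≤ S := Real.sqrt_nonneg _
  have hS1 : 1 / 2 ≤ S := by nlinarith
  have hn : (N : ℝ) + 1 ≤ (2 * S) ^ 2 := by nlinarith
  have hy1 : 2 * S ≤ ⌈2 * S⌉₊ := Nat.le_ceil _
  have hy2 : (⌈2 * S⌉₊ : ℝ) < 2 * S + 1 := Nat.ceil_lt_add_one (by positivity)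
  have hy3 : 1 ≤ ⌈2 * S⌉₊ := by exact_mod_cast (show (1 : ℝ) ≤ ⌈2 * S⌉₊ by linarith)
  generalize ⌈2 * S⌉₊ = m at hy1 hy2 hy3
  have h1 := h (m + 1) (by omega) (by
    have : (N : ℝ) + 1 < (m + 1) ^ 2 := by nlinarith
    exact_mod_cast this)
  rw [Nat.add_sub_cancel] at h1
  have h2 : ((T.filter (m + 1 ≤ ·)).card : ℝ) * m ≤ 2 * (N + 1) := by exact_mod_cast h1
  have h3 : ((T.filter (m + 1 ≤ ·)).card : ℝ) * L ≤ 2 * S := by
    refine le_of_mul_le_mul_right ?_ (show 0 < 2 * S by linarith)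
    have h4 := mul_le_mul_of_nonneg_left hy1 (Nat.cast_nonneg (α := ℝ) (T.filter (m + 1 ≤ ·)).card)
    have h5 := mul_le_mul_of_nonneg_right (h4.trans h2) (show 0 ≤ L by linarith)
    nlinarith
  have h4 := rowG_small (n := N + 1) (by omega) T hT
  have h5 := rowG_mid T hT (m + 1)
  have h6 := sum_le_sum fun p hp => rowG_term (n := N + 1) (hT p hp) (by omega) (m + 1)
  rw [sum_add_distrib, sum_add_distrib, ← sum_filter, ← sum_filter, ← sum_filter, sum_const,
    sum_const, nsmul_eq_mul, nsmul_eq_mul, ← mul_sum] at h6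
  have h7 : Real.sqrt (N + 1) ≤ 2 * S := Real.sqrt_le_iff.2 ⟨by positivity, hn⟩
  have h8 : ∀ p ∈ T, (p : ℝ) ≠ 0 := fun p hp => by exact_mod_cast (hT p hp).ne_zero
  rw [← Real.log_le_iff_le_exp (by
    exact_mod_cast Nat.mul_pos two_pos (prod_pos fun p hp => pow_pos (hT p hp).pos _)),
    Nat.cast_mul, Nat.cast_prod, Real.log_mul (by norm_num) (prod_ne_zero_iff.2 fun p hp => by
      rw [Nat.cast_pow]; exact pow_ne_zero _ (h8 p hp)), Real.log_prod fun p hp => by
      rw [Nat.cast_pow]; exact pow_ne_zero _ (h8 p hp)]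
  simp only [Nat.cast_pow, Real.log_pow]
  have h9 := Real.log_le_sub_one_of_pos (x := 2) two_pos
  push_cast at h4 h5 h6 ⊢
  rw [← hLd] at h4 h6
  linarith

end Pool.Agent.MP_db5b97_nt.H85
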