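import Pool.Agent.MP_db5b97_nt.H31.SpecN

/-! The contribution of the small primes. -/

namespace Pool.Agent.MP_db5b97_nt.H95

open Finset Filter Topology H31

theorem JJ_mono {a b : ℕ} (h : a ≤ b) : JJ a ≤ JJ b := by
  unfold JJ; gcongr

theorem JJ_le (k : ℕ) : JJ k ≤ 4 * k ^ 3 := by
  unfold JJ
  rcases Nat.eq_zero_or_pos k with rfl | hk
  · simp
  · have h1 : k ≤ k ^ 2 := Nat.le_self_pow (by norm_num) k
    have h2 : k ^ 2 ≤ k ^ 3 := Nat.pow_le_pow_right hk (by norm_num)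
    nlinarith

theorem cnt_small {n : ℕ} (hn : 2 ≤ n) (T : Finset ℕ) (hT : ∀ p ∈ T, p.Prime) :
    ((T.filter (· ^ 4 ≤ n)).card : ℝ) * Real.log n ^ 4 ≤ 16 ^ 4 * Real.sqrt n := by
  have hn0 : (0 : ℝ) < n := by positivity
  obtain ⟨u, hu0, hu⟩ : ∃ u : ℝ, 0 < u ∧ u ^ 16 = n :=
    ⟨(n : ℝ) ^ ((16 : ℕ) : ℝ)⁻¹, by positivity, Real.rpow_inv_natCast_pow hn0.le (by norm_num)⟩
  have h1 : ((T.filter (· ^ 4 ≤ n)).card : ℝ) ≤ u ^ 4 := by
    have h2 : T.filter (· ^ 4 ≤ n) ⊆ Icc 1 ⌊u ^ 4⌋₊ := fun p hp => by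
      rw [mem_filter] at hp
      refine mem_Icc.2 ⟨(hT p hp.1).pos, Nat.le_floor ?_⟩
      refine (pow_le_pow_iff_left₀ (by positivity) (by positivity) four_ne_zero).1 ?_
      rw [← pow_mul, hu]
      exact_mod_cast hp.2
    have h3 := card_le_card h2
    rw [Nat.card_Icc, Nat.add_sub_cancel] at h3
    exact (Nat.cast_le.2 h3).trans (Nat.floor_le (by positivity))
  have h2 : Real.log n ≤ 16 * u := by
    rw [← hu, Real.log_pow]
    push_cast
    linarith [Real.log_le_sub_one_of_pos hu0]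
  have h3 : Real.sqrt n = u ^ 8 := by
    rw [← hu, show u ^ 16 = (u ^ 8) ^ 2 by ring, Real.sqrt_sq (by positivity)]
  calc _ ≤ u ^ 4 * (16 * u) ^ 4 := mul_le_mul h1
        (pow_le_pow_left₀ (Real.log_natCast_nonneg n) h2 4) (by positivity) (by positivity)
    _ = _ := by rw [h3]; ring

theorem sum_mid (T : Finset ℕ) (y : ℕ) (hT : ∀ p ∈ T, p.Prime ∧ p ≤ y) :
    ∑ p ∈ T, Real.log p ≤ 3 * y := by
  have h1 : ∑ p ∈ T, Real.log p ≤ ∑ p ∈ (range (y + 1)).filter Nat.Prime, Real.log p :=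
    sum_le_sum_of_subset_of_nonneg (fun p hp => by
      rw [mem_filter]
      exact ⟨mem_range.2 (by have := (hT p hp).2; omega), (hT p hp).1⟩)
      fun p _ _ => Real.log_natCast_nonneg p
  have h2 : (primorial y : ℝ) ≤ 4 ^ y := by exact_mod_cast primorial_le_four_pow y
  have h3 := Real.log_le_log (by exact_mod_cast primorial_pos y) h2
  rw [primorial, Nat.cast_prod, Real.log_prod fun p hp => by
    exact_mod_cast (mem_filter.1 hp).2.ne_zero, Real.log_pow] at h3
  have h4 := Real.log_le_sub_one_of_pos (x := 4) (by norm_num)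
  nlinarith [(Nat.cast_nonneg y : (0 : ℝ) ≤ y)]

theorem term_le {n p : ℕ} (hp : p.Prime) (hn : 2 ≤ n) :
    ((Nat.log p n * JJ (Nat.log p (n ^ 2)) : ℕ) : ℝ) * Real.log p ≤
      (if p ^ 4 ≤ n then 108 * Real.log n ^ 4 else 0) + 4116 * Real.log p := by
  have hp0 : (0 : ℝ) < p := by exact_mod_cast hp.pos
  have hl : 0 ≤ Real.log p := Real.log_natCast_nonneg p
  have hL : 0 ≤ Real.log n := Real.log_natCast_nonneg n
  by_cases h : p ^ 4 ≤ n
  · rw [if_pos h]
    have h1 := Nat.pow_log_le_self p (x := n ^ 2) (by positivity)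
    have h1' := Nat.pow_log_le_self p (x := n) (by positivity)
    generalize Nat.log p (n ^ 2) = k at h1
    generalize Nat.log p n = j at h1'
    have hk : (0 : ℝ) ≤ k := by positivity
    have h2 : k * Real.log p ≤ 2 * Real.log n := by
      have := Real.log_le_log (by positivity) (show (p : ℝ) ^ k ≤ (n : ℝ) ^ 2 by exact_mod_cast h1)
      rw [Real.log_pow, Real.log_pow] at this
      exact_mod_cast this
    have h2' : j * Real.log p ≤ Real.log n := by
      have := Real.log_le_log (by positivity) (show (p : ℝ) ^ j ≤ (n : ℝ) by exact_mod_cast h1')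
      rwa [Real.log_pow] at this
    have h3 : (k : ℝ) ≤ 3 * Real.log n := by
      have h4 : Real.log 2 ≤ Real.log p := Real.log_le_log two_pos (by exact_mod_cast hp.two_le)
      nlinarith [Real.log_two_gt_d9]
    have h4 : (JJ k : ℝ) ≤ 4 * (3 * Real.log n) ^ 3 := by
      have : (JJ k : ℝ) ≤ 4 * (k : ℝ) ^ 3 := by exact_mod_cast JJ_le k
      exact this.trans (by gcongr)
    have h5 : ((j * JJ k : ℕ) : ℝ) * Real.log p = JJ k * (j * Real.log p) := by push_cast; ring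
    have h6 := mul_le_mul h4 h2' (by positivity) (by positivity)
    rw [h5]
    nlinarith
  · rw [if_neg h, zero_add]
    have h7 : Nat.log p (n ^ 2) ≤ 7 :=
      Nat.le_of_lt_succ (Nat.log_lt_of_lt_pow (by positivity) (by
        rw [show p ^ 8 = (p ^ 4) ^ 2 by ring]
        exact Nat.pow_lt_pow_left (not_le.1 h) two_ne_zero))
    have h3 : Nat.log p n ≤ 3 :=
      Nat.le_of_lt_succ (Nat.log_lt_of_lt_pow (by positivity) (not_le.1 h))
    have h4 : Nat.log p n * JJ (Nat.log p (n ^ 2)) ≤ 3 * (4 * 7 ^ 3) :=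
      Nat.mul_le_mul h3 ((JJ_mono h7).trans (JJ_le 7))
    refine mul_le_mul_of_nonneg_right ?_ hl
    exact_mod_cast h4

theorem sum_two {n : ℕ} (hn : 2 ≤ n) (T : Finset ℕ) (hT : ∀ p ∈ T, p.Prime ∧ p ^ 2 ≤ n) :
    ∑ p ∈ T, ((Nat.log p n * JJ (Nat.log p (n ^ 2)) : ℕ) : ℝ) * Real.log p ≤
      (108 * 16 ^ 4 + 4116 * 3) * Real.sqrt n := by
  have h4 := cnt_small hn T fun p hp => (hT p hp).1
  have h5 := sum_mid T n.sqrt fun p hp => ⟨(hT p hp).1, Nat.le_sqrt'.2 (hT p hp).2⟩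
  have h6 := sum_le_sum fun p hp => term_le (n := n) (hT p hp).1 hn
  rw [sum_add_distrib, ← sum_filter, sum_const, nsmul_eq_mul, ← mul_sum] at h6
  have h7 : (n.sqrt : ℝ) ≤ Real.sqrt n := Real.nat_sqrt_le_real_sqrt
  linarith

theorem sqrt_le_sz (c ε : ℝ) (hε : 0 < ε) :
    ∀ᶠ n : ℕ in atTop, c * Real.sqrt n ≤ ε * sz n := by
  have h : Tendsto (fun n : ℕ => Real.sqrt (Real.log n)) atTop atTop :=
    Real.tendsto_sqrt_atTop.comp (Real.tendsto_log_atTop.comp tendsto_natCast_atTop_atTop)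
  filter_upwards [h.eventually_ge_atTop (c / ε)] with n hn
  rw [sz, Real.sqrt_mul (Nat.cast_nonneg n)]
  rw [div_le_iff₀ hε] at hn
  nlinarith [Real.sqrt_nonneg (n : ℝ)]

theorem log_prod_pow (T : Finset ℕ) (hT : ∀ p ∈ T, p.Prime) (e : ℕ → ℕ) :
    Real.log ((∏ p ∈ T, p ^ e p : ℕ) : ℝ) = ∑ p ∈ T, (e p : ℝ) * Real.log p := by
  rw [Nat.cast_prod, Real.log_prod fun p hp => by
    exact_mod_cast pow_ne_zero _ (hT p hp).ne_zero]
  simp only [Nat.cast_pow, Real.log_pow]

theorem small_big (η : ℝ) (C : ℕ) (hη : 0 < η) : ∀ᶠ n : ℕ in atTop,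
    C * n ≤ ⌈η * sz n⌉₊ ^ 2 ∧ C ≤ ⌈η * sz n⌉₊ := by
  filter_upwards [sqrt_le_sz (Real.sqrt C) η hη, eventually_ge_atTop C] with n h1 h2
  have h3 : C * n ≤ ⌈η * sz n⌉₊ ^ 2 := by
    have h4 := h1.trans (Nat.le_ceil _)
    rw [← Real.sqrt_mul (Nat.cast_nonneg C)] at h4
    exact_mod_cast (Real.sqrt_le_iff.1 h4).2
  refine ⟨h3, ?_⟩
  by_contra h4
  have h5 := Nat.pow_lt_pow_left (not_le.1 h4) two_ne_zero
  nlinarith

theorem small_shift : Tendsto (fun N : ℕ => sz (N + 1) / sz N) atTop (𝓝 1) := by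
  have hl : Tendsto (fun n : ℕ => Real.log n) atTop atTop :=
    Real.tendsto_log_atTop.comp tendsto_natCast_atTop_atTop
  have h1 : Tendsto (fun N : ℕ => 1 + 1 / (N : ℝ)) atTop (𝓝 1) := by
    simpa using tendsto_one_div_atTop_nhds_zero_nat.const_add (1 : ℝ)
  have h2 : Tendsto (fun N : ℕ => 1 + (Real.log (N + 1) - Real.log N) / Real.log N) atTop
      (𝓝 1) := by
    simpa using (Real.tendsto_log_nat_add_one_sub_log.div_atTop hl).const_add (1 : ℝ)
  have h3 := (h1.mul h2).sqrt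
  rw [mul_one, Real.sqrt_one] at h3
  refine h3.congr' ?_
  filter_upwards [eventually_ge_atTop 2] with N hN
  have hN0 : (0 : ℝ) < N := by positivity
  have hL : 0 < Real.log N := Real.log_pos (by exact_mod_cast hN)
  rw [sz, sz, ← Real.sqrt_div' _ (by positivity)]
  congr 1
  push_cast
  field_simp
  ring

theorem rowSMALL : RowSMALL where
  one ε hε := by
    refine ⟨min 1 (ε / 36), by positivity, min_le_left _ _, ?_⟩
    filter_upwards [sqrt_le_sz (108 * 16 ^ 4 + 4116 * 3 + 12) (ε / 2) (by positivity),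
      eventually_ge_atTop 2] with n h1 hn
    have hz : 0 ≤ sz n := Real.sqrt_nonneg _
    have hy : (⌈min 1 (ε / 36) * sz n⌉₊ : ℝ) ≤ ε / 36 * sz n + 1 :=
      (Nat.ceil_lt_add_one (by positivity)).le.trans (by gcongr; exact min_le_right _ _)
    generalize ⌈min 1 (ε / 36) * sz n⌉₊ = y at hy
    have hT : ∀ p ∈ (range y).filter Nat.Prime, p.Prime := fun p hp => (mem_filter.1 hp).2
    rw [← Real.log_le_iff_le_exp (by
      exact_mod_cast prod_pos fun p hp => pow_pos (hT p hp).pos _), log_prod_pow _ hT]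
    have h2 := sum_mid ((range y).filter Nat.Prime) y fun p hp =>
      ⟨hT p hp, (mem_range.1 (mem_filter.1 hp).1).le⟩
    have h3 := sum_two hn (((range y).filter Nat.Prime).filter (· ^ 2 ≤ n)) fun p hp =>
      ⟨hT p (mem_filter.1 hp).1, (mem_filter.1 hp).2⟩
    have h4 : ∀ p ∈ (range y).filter Nat.Prime, (JJ (Nat.log p n) : ℝ) * Real.log p ≤
        (if p ^ 2 ≤ n then ((Nat.log p n * JJ (Nat.log p (n ^ 2)) : ℕ) : ℝ) * Real.log p else 0) +
          4 * Real.log p := fun p hp => by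
      have hl : 0 ≤ Real.log p := Real.log_natCast_nonneg p
      split_ifs with h
      · have h5 : 1 ≤ Nat.log p n := Nat.log_pos (hT p hp).one_lt
          ((Nat.le_self_pow two_ne_zero p).trans h)
        have h6 : JJ (Nat.log p n) ≤ Nat.log p n * JJ (Nat.log p (n ^ 2)) :=
          (JJ_mono (Nat.log_mono_right (Nat.le_self_pow two_ne_zero n))).trans
            (Nat.le_mul_of_pos_left _ h5)
        have h7 := mul_le_mul_of_nonneg_right (Nat.cast_le (α := ℝ).2 h6) hl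
        linarith
      · have h5 : Nat.log p n ≤ 1 :=
          Nat.le_of_lt_succ (Nat.log_lt_of_lt_pow (by positivity) (not_le.1 h))
        have h6 : JJ (Nat.log p n) ≤ 4 := (JJ_mono h5).trans (JJ_le 1)
        rw [zero_add]
        exact mul_le_mul_of_nonneg_right (by exact_mod_cast h6) hl
    have h5 := sum_le_sum h4
    rw [sum_add_distrib, ← sum_filter, ← mul_sum] at h5
    have h6 : 1 ≤ Real.sqrt n := Real.one_le_sqrt.2 (by exact_mod_cast (by omega : 1 ≤ n))
    nlinarith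
  two ε hε := by
    filter_upwards [sqrt_le_sz (108 * 16 ^ 4 + 4116 * 3 + 1) ε hε,
      eventually_ge_atTop 2] with n h1 hn
    have hT : ∀ p ∈ (range (n + 1)).filter (fun p => p.Prime ∧ p ^ 2 ≤ n), p.Prime :=
      fun p hp => (mem_filter.1 hp).2.1
    have h0 : (0 : ℝ) < ((∏ p ∈ (range (n + 1)).filter (fun p => p.Prime ∧ p ^ 2 ≤ n),
        p ^ (Nat.log p n * JJ (Nat.log p (n ^ 2))) : ℕ) : ℝ) := by
      exact_mod_cast prod_pos fun p hp => pow_pos (hT p hp).pos _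
    rw [Nat.cast_mul, ← Real.log_le_iff_le_exp (by positivity),
      Real.log_mul (by norm_num) h0.ne', log_prod_pow _ hT]
    have h3 := sum_two hn _ fun p (hp : p ∈ (range (n + 1)).filter
      (fun p => p.Prime ∧ p ^ 2 ≤ n)) => (mem_filter.1 hp).2
    have h6 : 1 ≤ Real.sqrt n := Real.one_le_sqrt.2 (by exact_mod_cast (by omega : 1 ≤ n))
    have h9 := Real.log_le_sub_one_of_pos (x := 2) two_pos
    rw [Nat.cast_ofNat]
    linarith
  big := small_big
  shift := small_shift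

end Pool.Agent.MP_db5b97_nt.H95
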